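import Pool.Agent.Y405.BI.Cov
import Pool.Agent.Y706.CH.Stm

/-!
# Project CH (helper706), job COV2: points with large expansion are close to roots

Generalization of `Pool/Agent/Y405/BI/Cov.lean` (helper405).
-/

set_option autoImplicit false

namespace Pool.Agent.Y21.CH

open Pool.Agent.W277.UB Pool.Agent.W277.UG Pool.Agent.W277.UH Pool.Agent.Y706.BI Finset
open Pool.Agent.Y706.CH
open Pool.Agent.Y405.BI (schwarz fU_spec iter_spec norm_eq_of_sub_lt₂)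

universe u

lemma pos_low {n : ℕ} (f : Fin n → ℝ) (hf : ∀ l, 0 < f l) : ∃ δ : ℝ, 0 < δ ∧ ∀ l, δ ≤ f l := by
  rcases isEmpty_or_nonempty (Fin n) with h | h
  · exact ⟨1, one_pos, fun l => (h.false l).elim⟩
  · obtain ⟨l₀, h₀⟩ := Finite.exists_min f
    exact ⟨f l₀, hf l₀, h₀⟩

section

variable {Ω : Type u} [NormedField Ω] [IsUltrametricDist Ω]

/-- distances to a far vector are locally constant -/
lemma wd_far {X X' η : Ω × Ω} (hX : ‖X‖ = 1) (hX' : ‖X'‖ = 1) (hη : ‖η‖ = 1)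
    (h : ‖wd X' X‖ < ‖wd X η‖) : ‖wd X' η‖ = ‖wd X η‖ := by
  apply le_antisymm
  · exact (wd_ultra hX' hη hX).trans (max_le h.le le_rfl)
  · rcases le_max_iff.1 (wd_ultra hX hη hX') with h1 | h1
    · rw [wd_comm X X', norm_neg] at h1
      exact absurd h1 (not_le.2 h)
    · exact h1

/-- distance to an equivalent vector -/
lemma wd_near {X X' η : Ω × Ω} (hX : ‖X‖ = 1) (hη : ‖η‖ = 1) (h : wd X η = 0) :
    ‖wd X' η‖ = ‖wd X' X‖ := by
  obtain ⟨t, ht⟩ := (wd_zero_iff (by rintro rfl; simp at hη)).1 h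
  have h1 : ‖t‖ = 1 := by
    have := hX
    rw [ht, norm_smul, hη, mul_one] at this
    exact this
  rw [ht, wd_smul_right, norm_mul, h1, one_mul]

lemma near_b (T : HS Ω) {X b : Ω × Ω} (hX : ‖X‖ = 1) (hb : ‖b‖ = 1) (ε : ℝ) (hε : 0 < ε) :
    ∃ δ : ℝ, 0 < δ ∧ ∀ X' : Ω × Ω, ‖X'‖ = 1 → ‖wd X' X‖ < δ →
      ‖wd (T.F X') b‖ = ‖wd (T.F X) b‖ ∨ (‖wd (T.F X) b‖ = 0 ∧ ‖wd (T.F X') b‖ ≤ ε) := by
  obtain ⟨c, η, h⟩ := T.roots b hb
  have hRS : T.IsRS b c η := h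
  have hc : 0 < ‖c‖ := norm_pos_iff.2 hRS.1
  by_cases h0 : wd (T.F X) b = 0
  · refine ⟨ε / ‖c‖, by positivity, fun X' hX' hlt => Or.inr ⟨by rw [h0, norm_zero], ?_⟩⟩
    have h1 : ∏ l, wd X (η l) = 0 := by
      have h2 := hRS.2.2.1 X
      rw [h0] at h2
      exact (mul_eq_zero.1 h2.symm).resolve_left hRS.1
    obtain ⟨l₀, -, hl₀⟩ := prod_eq_zero_iff.1 h1
    rw [HS.rs_ord hRS X', ← mul_prod_erase univ _ (mem_univ l₀), wd_near hX (hRS.2.1 l₀) hl₀]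
    have h3 : ∏ l ∈ univ.erase l₀, ‖wd X' (η l)‖ ≤ 1 := by
      refine prod_le_one (fun l _ => norm_nonneg _) fun l _ => ?_
      have := norm_wd_le X' (η l)
      rwa [hX', hRS.2.1 l, one_mul] at this
    calc ‖c‖ * (‖wd X' X‖ * ∏ l ∈ univ.erase l₀, ‖wd X' (η l)‖) ≤ ‖c‖ * (ε / ‖c‖ * 1) := by
          gcongr
      _ = ε := by field_simp
  · have h1 : ∀ l, 0 < ‖wd X (η l)‖ := by
      intro l
      rw [norm_pos_iff]
      intro h2
      apply h0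
      rw [hRS.2.2.1, prod_eq_zero (mem_univ l) h2, mul_zero]
    obtain ⟨δ, hδ, hδl⟩ := pos_low _ h1
    refine ⟨δ, hδ, fun X' hX' hlt => Or.inl ?_⟩
    rw [HS.rs_ord hRS X', HS.rs_ord hRS X]
    congr 1
    exact prod_congr rfl fun l _ => wd_far hX hX' (hRS.2.1 l) (hlt.trans_le (hδl l))

/-- the size of the map is locally constant -/
lemma near (T : HS Ω) (X : UV Ω) : ∃ δ : ℝ, 0 < δ ∧ ∀ X' : UV Ω, ‖wd X'.1 X.1‖ < δ →
    ‖T.F X'.1‖ = ‖T.F X.1‖ := by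
  have hF : 0 < ‖T.F X.1‖ := norm_pos_iff.2 (T.nz _ X.ne)
  obtain ⟨δ₁, h₁, k₁⟩ := near_b T X.2 norm_e2 _ hF
  obtain ⟨δ₂, h₂, k₂⟩ := near_b T X.2 norm_e1 _ hF
  refine ⟨min δ₁ δ₂, lt_min h₁ h₂, fun X' hlt => ?_⟩
  have g₁ := k₁ X'.1 X'.2 (hlt.trans_le (min_le_left _ _))
  have g₂ := k₂ X'.1 X'.2 (hlt.trans_le (min_le_right _ _))
  have e := norm_eq_of_e (T.F X.1)
  have e' := norm_eq_of_e (T.F X'.1)
  have u₁ : ‖wd (T.F X.1) (0, 1)‖ ≤ ‖T.F X.1‖ := by rw [e]; exact le_max_left _ _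
  have u₂ : ‖wd (T.F X.1) (1, 0)‖ ≤ ‖T.F X.1‖ := by rw [e]; exact le_max_right _ _
  apply le_antisymm
  · rw [e']
    refine max_le ?_ ?_
    · rcases g₁ with g | g
      · rw [g]; exact u₁
      · exact g.2
    · rcases g₂ with g | g
      · rw [g]; exact u₂
      · exact g.2
  · rcases max_choice ‖wd (T.F X.1) (0, 1)‖ ‖wd (T.F X.1) (1, 0)‖ with h | h
    · rw [← e] at h
      rcases g₁ with g | g
      · rw [h, ← g, e']
        exact le_max_left _ _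
      · rw [g.1] at h
        exact absurd h hF.ne'
    · rw [← e] at h
      rcases g₂ with g | g
      · rw [h, ← g, e']
        exact le_max_right _ _
      · rw [g.1] at h
        exact absurd h hF.ne'

/-- the logarithm of the expansion for the chordal distance -/
noncomputable def eps {T : HS Ω} (D : JD T) (X : UV Ω) : ℝ :=
  Pool.Agent.Y706.CH.EE D X - 2 * G0 T X + 2 * G0 T (fU T X)

/-- the root equivalent to `X` -/
lemma root0 (T : HS Ω) (X : UV Ω) : ∃ l₀, eqv X (rt T (fU T X) l₀) := by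
  have hRS := rt_spec T (fU T X)
  obtain ⟨t, -, ht, -⟩ := fU_spec T X
  have h1 := hRS.2.2.1 X.1
  rw [ht, wd_smul_left, wd_self, mul_zero] at h1
  obtain ⟨l₀, -, hl₀⟩ := prod_eq_zero_iff.1 ((mul_eq_zero.1 h1.symm).resolve_left hRS.1)
  exact ⟨l₀, hl₀⟩

lemma expand (T : HS Ω) (hd2 : 2 ≤ T.d)
    (hG2 : ∀ X : UV Ω, G0 T (fU T X) = T.d * G0 T X - hh T X)
    (hE : ∀ X Y : UV Ω, eqv X Y → G0 T X = G0 T Y)
    (hF : ∀ X Y : UV Ω, ¬ eqv (fU T X) Y → ∑ l, gg T X (rt T Y l) = gg T (fU T X) Y)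
    (D : JD T) (X : UV Ω) (hX : ∀ i, ¬ eqv X (D.c i)) :
    ∃ δ : ℝ, 0 < δ ∧ ∀ X' : UV Ω, wd X'.1 X.1 ≠ 0 → ‖wd X'.1 X.1‖ < δ →
      wd (fU T X').1 (fU T X).1 ≠ 0 ∧
      Real.log ‖wd (fU T X').1 (fU T X).1‖ = Real.log ‖wd X'.1 X.1‖ + eps D X := by
  set Y := fU T X with hY
  have hRS := rt_spec T Y
  obtain ⟨l₀, hl₀⟩ := root0 T X
  rw [← hY] at hl₀
  obtain ⟨hne, hsum⟩ := D.hE X Y l₀ (wd_self _) hl₀ hX
  obtain ⟨δ₁, hδ₁, k₁⟩ := near T X
  obtain ⟨δ₂, hδ₂, k₂⟩ := pos_low (fun l => if l = l₀ then 1 else ‖wd X.1 (rt T Y l).1‖) (by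
    intro l
    split_ifs with h
    · exact one_pos
    · exact norm_pos_iff.2 (hne l h))
  refine ⟨min δ₁ δ₂, lt_min hδ₁ hδ₂, fun X' hX' hlt => ?_⟩
  have hfar : ∀ l, l ≠ l₀ → ‖wd X'.1 (rt T Y l).1‖ = ‖wd X.1 (rt T Y l).1‖ := by
    intro l hl
    refine wd_far X.2 X'.2 (rt T Y l).2 ?_
    have h1 := k₂ l
    simp only [hl, if_false] at h1
    exact (hlt.trans_le (min_le_right _ _)).trans_le h1
  have hnear : ‖wd X'.1 (rt T Y l₀).1‖ = ‖wd X'.1 X.1‖ := wd_near X.2 (rt T Y l₀).2 hl₀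
  have hFX := k₁ X' (hlt.trans_le (min_le_left _ _))
  have hhX : hh T X' = hh T X := by
    unfold hh
    rw [hFX]
  -- the image is not equivalent to `Y`
  have hne' : ¬ eqv (fU T X') Y := by
    intro h
    obtain ⟨t, -, ht, -⟩ := fU_spec T X'
    have h1 := hRS.2.2.1 X'.1
    rw [ht, wd_smul_left, show wd (fU T X').1 Y.1 = 0 from h, mul_zero] at h1
    obtain ⟨l, -, hl⟩ := prod_eq_zero_iff.1 ((mul_eq_zero.1 h1.symm).resolve_left hRS.1)
    by_cases hll : l = l₀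
    · rw [hll] at hl
      rw [hl, norm_zero] at hnear
      exact hX' (norm_eq_zero.1 hnear.symm)
    · have h2 := hfar l hll
      have hl' : wd X'.1 (rt T Y l).1 = 0 := hl
      rw [hl', norm_zero] at h2
      exact hne l hll (norm_eq_zero.1 h2.symm)
  refine ⟨hne', ?_⟩
  have h1 := hF X' Y hne'
  rw [← add_sum_erase univ _ (mem_univ l₀)] at h1
  have h2 : ∑ l ∈ univ.erase l₀, gg T X' (rt T Y l) =
      ∑ l ∈ univ.erase l₀, gg T X (rt T Y l) + ((T.d : ℝ) - 1) * (G0 T X' - G0 T X) := by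
    have e : ∀ l ∈ univ.erase l₀, gg T X' (rt T Y l) =
        gg T X (rt T Y l) + (G0 T X' - G0 T X) := by
      intro l hl
      unfold gg
      rw [hfar l (ne_of_mem_erase hl)]
      ring
    rw [sum_congr rfl e, sum_add_distrib, sum_const, card_erase_of_mem (mem_univ _),
      card_univ, Fintype.card_fin, nsmul_eq_mul, Nat.cast_sub (by omega), Nat.cast_one]
  have h3 : gg T X' (rt T Y l₀) = -Real.log ‖wd X'.1 X.1‖ + G0 T X' + G0 T X +
      T.Res / (T.d * ((T.d : ℝ) - 1)) := by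
    unfold gg
    rw [hnear, ← hE X _ hl₀]
  have h4 : gg T (fU T X') Y = -Real.log ‖wd (fU T X').1 Y.1‖ + G0 T (fU T X') + G0 T Y +
      T.Res / (T.d * ((T.d : ℝ) - 1)) := rfl
  rw [h2, h3, h4, hsum, hG2 X', hhX] at h1
  have h5 := hG2 X
  rw [← hY] at h5
  unfold eps Pool.Agent.Y706.CH.EE
  rw [← hY]
  linear_combination h1 - h5

lemma telescope (T : HS Ω) (hd2 : 2 ≤ T.d)
    (hG2 : ∀ X : UV Ω, G0 T (fU T X) = T.d * G0 T X - hh T X)
    (hE : ∀ X Y : UV Ω, eqv X Y → G0 T X = G0 T Y)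
    (hF : ∀ X Y : UV Ω, ¬ eqv (fU T X) Y → ∑ l, gg T X (rt T Y l) = gg T (fU T X) Y)
    (D : JD T) (J : ℕ) :
    ∀ X : UV Ω, (∀ j < J, ∀ i, ¬ eqv ((fU T)^[j] X) (D.c i)) →
    ∃ δ₀ : ℝ, 0 < δ₀ ∧ ∀ X' : UV Ω, wd X'.1 X.1 ≠ 0 → ‖wd X'.1 X.1‖ < δ₀ →
      wd ((fU T)^[J] X').1 ((fU T)^[J] X).1 ≠ 0 ∧
      Real.log ‖wd ((fU T)^[J] X').1 ((fU T)^[J] X).1‖ =
        Real.log ‖wd X'.1 X.1‖ + ∑ j ∈ range J, eps D ((fU T)^[j] X) := by
  induction J with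
  | zero =>
    intro X _
    refine ⟨1, one_pos, fun X' h _ => ⟨h, ?_⟩⟩
    simp
  | succ J ih =>
    intro X hX
    obtain ⟨δ₁, hδ₁, h⟩ := ih (fU T X) (fun j hj => by
      have := hX (j + 1) (by omega)
      rwa [Function.iterate_succ_apply] at this)
    have h0 := hX 0 (by omega)
    rw [Function.iterate_zero_apply] at h0
    obtain ⟨δ₂, hδ₂, hexp⟩ := expand T hd2 hG2 hE hF D X h0
    refine ⟨min δ₂ (δ₁ * Real.exp (-eps D X)), by positivity, ?_⟩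
    intro X' hX' hlt
    rw [lt_min_iff] at hlt
    obtain ⟨hl1, hl3⟩ := hlt
    obtain ⟨g1, g2⟩ := hexp X' hX' hl1
    have hpos : 0 < ‖wd X'.1 X.1‖ := norm_pos_iff.mpr hX'
    have g3 : ‖wd (fU T X').1 (fU T X).1‖ < δ₁ := by
      have g4 : ‖wd (fU T X').1 (fU T X).1‖ = ‖wd X'.1 X.1‖ * Real.exp (eps D X) := by
        rw [← Real.exp_log (norm_pos_iff.mpr g1), g2, Real.exp_add, Real.exp_log hpos]
      rw [g4]
      calc ‖wd X'.1 X.1‖ * Real.exp (eps D X) < (δ₁ * Real.exp (-eps D X)) * Real.exp (eps D X) :=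
            mul_lt_mul_of_pos_right hl3 (Real.exp_pos _)
        _ = δ₁ := by rw [mul_assoc, ← Real.exp_add, neg_add_cancel, Real.exp_zero, mul_one]
    obtain ⟨g5, g6⟩ := h (fU T X') g1 g3
    rw [Function.iterate_succ_apply, Function.iterate_succ_apply]
    refine ⟨g5, ?_⟩
    rw [g6, g2, sum_range_succ']
    simp only [Function.iterate_succ_apply, Function.iterate_zero_apply]
    ring

lemma sum_EE (T : HS Ω) (D : JD T) (J : ℕ) (X : UV Ω) :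
    ∑ j ∈ range J, Pool.Agent.Y706.CH.EE D ((fU T)^[j] X) = ∑ j ∈ range J, eps D ((fU T)^[j] X) +
      2 * G0 T X - 2 * G0 T ((fU T)^[J] X) := by
  induction J with
  | zero => simp
  | succ J ih =>
    rw [sum_range_succ, sum_range_succ, ih, Function.iterate_succ_apply']
    unfold eps
    ring

end

theorem t_COV2 : S_GRN2.{u} → S_COV2.{u} := by
  intro hGRN Ω _ _ _ hnat T hgs hd D J b₁ b₂ hb c₁ c₂ η₁ η₂ h₁ h₂ X s hs hX hsum
  obtain ⟨hρ, hh1, hG1, hG2, -, hinv, -, -, hfib, -⟩ := hGRN Ω hnat T hgs hd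
  have hd' : (2 : ℝ) ≤ T.d := by exact_mod_cast hd
  have hE : ∀ X Y : UV Ω, eqv X Y → G0 T X = G0 T Y := fun X Y h => (hinv X Y h).2.1
  -- the sum of the expansions
  have hG3 : ∀ Y : UV Ω, -T.Res ≤ G0 T Y := by
    intro Y
    refine le_trans ?_ (hG1 Y).1
    rw [neg_le_neg_iff]
    exact div_le_self hρ (by linarith)
  have hsum2 : s < ∑ j ∈ range J, eps D ((fU T)^[j] X) := by
    rw [sum_EE T D J X] at hsum
    have g1 := (hG1 X).2
    have g2 := hG3 ((fU T)^[J] X)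
    linarith
  by_contra hcon
  push Not at hcon
  have hη₁ : ∀ l, Real.exp (-s) < ‖wd X.1 (η₁ l).1‖ := fun l => (hcon l).1
  have hη₂ : ∀ l, Real.exp (-s) < ‖wd X.1 (η₂ l).1‖ := fun l => (hcon l).2
  obtain ⟨δ₀, hδ₀, htel⟩ := telescope T hd hG2 hE hfib D J X hX
  -- a transversal vector
  obtain ⟨Z, hZ, hXZ⟩ : ∃ Z : Ω × Ω, ‖Z‖ = 1 ∧ ‖wd X.1 Z‖ = 1 := by
    have h3 := X.2
    rw [Prod.norm_def] at h3
    rcases le_total ‖X.1.1‖ ‖X.1.2‖ with h | h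
    · rw [max_eq_right h] at h3
      exact ⟨(1, 0), norm_e1, by unfold wd; simpa using h3⟩
    · rw [max_eq_left h] at h3
      exact ⟨(0, 1), norm_e2, by unfold wd; simpa using h3⟩
  -- a small scalar
  obtain ⟨μ, hμ0, hμ⟩ : ∃ μ : Ω, μ ≠ 0 ∧ ‖μ‖ < min δ₀ (Real.exp (-s)) := by
    by_cases hm : ∃ m : Ω, m ≠ 0 ∧ ‖m‖ < 1
    · obtain ⟨m, hm0, hm1⟩ := hm
      obtain ⟨n, hn⟩ := exists_pow_lt_of_lt_one (show 0 < min δ₀ (Real.exp (-s)) by positivity) hm1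
      exact ⟨m ^ n, pow_ne_zero _ hm0, by rwa [norm_pow]⟩
    · exfalso
      push Not at hm
      have htriv : ∀ m : Ω, m ≠ 0 → ‖m‖ = 1 := by
        intro m hm0
        apply le_antisymm _ (hm m hm0)
        have h3 := hm m⁻¹ (inv_ne_zero hm0)
        rw [norm_inv] at h3
        exact (one_le_inv₀ (norm_pos_iff.mpr hm0)).mp h3
      have htriv2 : ∀ W : Ω × Ω, W ≠ 0 → ‖W‖ = 1 := by
        intro W hW
        obtain ⟨t, W', ht, -, -, ht2⟩ := exists_unit W hW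
        rw [← ht2]
        exact htriv t ht
      have hhz : ∀ Y : UV Ω, hh T Y = 0 := by
        intro Y
        unfold hh
        rw [htriv2 _ (T.nz _ Y.ne), Real.log_one]
      have hGz : ∀ Y : UV Ω, G0 T Y = 0 := by
        intro Y
        unfold G0
        simp only [hhz, zero_div, tsum_zero]
      have hC0 : 0 ≤ T.Res / ((T.d : ℝ) * ((T.d : ℝ) - 1)) :=
        div_nonneg hρ (by nlinarith)
      have hzero : ∑ j ∈ range J, eps D ((fU T)^[j] X) ≤ 0 := by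
        apply sum_nonpos
        intro j hj
        set W := (fU T)^[j] X with hW
        have hWc := hX j (mem_range.mp hj)
        rw [← hW] at hWc
        obtain ⟨l₀, hl₀⟩ := root0 T W
        obtain ⟨hne, hs1⟩ := D.hE W (fU T W) l₀ (wd_self _) hl₀ hWc
        have h5 : 0 ≤ ∑ l ∈ univ.erase l₀, gg T W (rt T (fU T W) l) := by
          refine sum_nonneg fun l hl => ?_
          unfold gg
          rw [hGz, hGz, htriv _ (hne l (ne_of_mem_erase hl)), Real.log_one]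
          linarith
        unfold eps Pool.Agent.Y706.CH.EE
        rw [hGz, hGz]
        linarith
      linarith
  rw [lt_min_iff] at hμ
  have hμ1 : ‖μ‖ * Real.exp s < 1 := by
    calc ‖μ‖ * Real.exp s < Real.exp (-s) * Real.exp s :=
          mul_lt_mul_of_pos_right hμ.2 (Real.exp_pos _)
      _ = 1 := by rw [← Real.exp_add, neg_add_cancel, Real.exp_zero]
  have hμ2 : ‖μ‖ < 1 := hμ.2.trans_le (Real.exp_le_one_iff.mpr (by linarith))
  have hμp : 0 < ‖μ‖ := norm_pos_iff.mpr hμ0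
  -- the vector `X'`
  have hX'n : ‖X.1 + μ • Z‖ = 1 := by
    refine (norm_eq_of_sub_lt₂ (b := X.1) ?_).trans X.2
    rw [add_sub_cancel_left, norm_smul, hZ, mul_one, X.2]
    exact hμ2
  let X' : UV Ω := ⟨X.1 + μ • Z, hX'n⟩
  have hwd : ‖wd X'.1 X.1‖ = ‖μ‖ := by
    have h3 : wd X'.1 X.1 = μ * wd Z X.1 := by
      show wd (X.1 + μ • Z) X.1 = _
      rw [wd_add_left, wd_smul_left, wd_self, zero_add]
    rw [h3, norm_mul, wd_comm, norm_neg, hXZ, mul_one]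
  obtain ⟨k1, k2⟩ := htel X' (norm_pos_iff.mp (by rw [hwd]; exact hμp)) (by rw [hwd]; exact hμ.1)
  obtain ⟨k3, k4⟩ := schwarz (T.iter J) b₁.2 b₂.2 hb h₁ h₂ X.1 Z hZ μ s hμ1 hη₁ hη₂
  rw [HS.iter_F] at k3 k4
  obtain ⟨t, ht, ht1, ht2⟩ := iter_spec T J X
  obtain ⟨t', ht', ht1', ht2'⟩ := iter_spec T J X'
  have k5 : wd (T.F^[J] X'.1) (T.F^[J] X.1) =
      t' * (t * wd ((fU T)^[J] X').1 ((fU T)^[J] X).1) := by
    rw [ht1, ht1', wd_smul_left, wd_smul_right]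
  have hApos : 0 < ‖T.F^[J] X.1‖ := by
    rw [← ht2]
    exact norm_pos_iff.mpr ht
  have hk : 0 < ‖wd ((fU T)^[J] X').1 ((fU T)^[J] X).1‖ := norm_pos_iff.mpr k1
  have k6 : ‖wd ((fU T)^[J] X').1 ((fU T)^[J] X).1‖ ≤ ‖μ‖ * Real.exp s := by
    have k7 : ‖T.F^[J] X'.1‖ * (‖T.F^[J] X.1‖ *
        ‖wd ((fU T)^[J] X').1 ((fU T)^[J] X).1‖) ≤
        ‖T.F^[J] X.1‖ ^ 2 * (‖μ‖ * Real.exp s) := by
      rw [← ht2', ← ht2, ← norm_mul, ← norm_mul, ← k5, ht2]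
      exact k3
    have k8 : ‖T.F^[J] X.1‖ * (‖T.F^[J] X.1‖ *
        ‖wd ((fU T)^[J] X').1 ((fU T)^[J] X).1‖) ≤
        ‖T.F^[J] X.1‖ ^ 2 * (‖μ‖ * Real.exp s) :=
      (mul_le_mul_of_nonneg_right k4 (by positivity)).trans k7
    have k9 : ‖T.F^[J] X.1‖ ^ 2 * ‖wd ((fU T)^[J] X').1 ((fU T)^[J] X).1‖ ≤
        ‖T.F^[J] X.1‖ ^ 2 * (‖μ‖ * Real.exp s) := by
      rw [pow_two, mul_assoc, ← pow_two]
      exact k8
    exact le_of_mul_le_mul_left k9 (by positivity)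
  have k10 := Real.log_le_log hk k6
  rw [k2, hwd, Real.log_mul hμp.ne' (Real.exp_pos _).ne', Real.log_exp] at k10
  linarith

end Pool.Agent.Y21.CH
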